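import Pool.Agent.Lib.MP_711ea9_lc.Outerplanar

set_option autoImplicit false

/-!
# The Firefighter problem on graphs without `K_{2,t}` minor in time `2 ^ o(n)`

The graphs without `K_{2,3}` minor include all outerplanar graphs; this inclusion is proved in
`Pool.Agent.Lib.MP_711ea9_lc.Outerplanar`.

Outline of the proof. A strategy is determined by the set `S` of vertices it protects in time.
Take an optimal one, let `T` be the time at which the last vertex burns, and suppose that
`n ≤ T L` where `L` is much smaller than `log n`. A guard is critical at time `p` if it is needed
before the next round and is connected, through vertices that are saved, to the part of the
graph which burns or is needed later. As there is no `K_{2,t}` minor, the number of critical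
guards at time `p` is less than `t` times the number of vertices which burn at time `p + 1`.
A scale `a` and a window of length `l` are chosen by averaging. In this window all guards which are
not critical too often are given up, and the firefighters build a wall consisting of the
vertices which would burn at the end of the window and of the critical guards. The fire
through the abandoned guards gains at most a factor `a` in speed, and the wall is ready in time.
Fewer vertices burn, a contradiction. Hence an optimal fire lasts `O(n / log n)` rounds, and it
suffices to try all sets of `O(n / log n)` guards.
-/

namespace Pool.Agent.Results.MP_711ea9_lc.KTwoMinorFree

open Pool.Agent.Lib.MP_711ea9_lc

/-- For every `t`, the Firefighter problem on graphs without `K_{2,t}` minor (for `t = 3` these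
include all outerplanar graphs) can be solved in time `2 ^ o(n)`. -/
theorem result : ∀ t : ℕ, SubexpSolvable (fun _ G => ¬ HasK2Minor G t) :=
  subexp

end Pool.Agent.Results.MP_711ea9_lc.KTwoMinorFree
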