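import Pool.Agent.Lib.MP_711ea9_lc.FH.K5

set_option autoImplicit false

/-!
# The Firefighter problem on planar graphs is as hard as 3SAT, up to a polylogarithmic factor

Formulas with `m` clauses are reduced to planar instances with `O(m (log m) ^ 8)` vertices. So
(under the exponential time hypothesis) there is no algorithm for planar graphs with running time
`2 ^ (n ^ (1 - ε))`, nor one with running time `2 ^ f n` where `f n * (log n) ^ 8 / n → 0`.

The graph. There are `22 + K` paths starting at the source of the fire (`K` of order
`(log m) ^ 2`), which burn at the rate of one vertex per round. In almost every round exactly one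
vertex, a door, next to one of the paths has to be protected: behind the doors of one path there is
a planar region, in which the fire cannot be contained before the firefighter has lost control over
all the regions. The rounds without a door are grouped in windows of at most seven rounds. In the
window `w` a bit is stored by the choice of one of two vertices (the roots of the strands `2 p` and
`2 p + 1`) which is protected, and the window is a gate: by a counting condition it can be survived
exactly if the stored bits satisfy a local condition. A vertex which was not protected when it was
threatened forces the firefighter to protect immediately a vertex far away (its target, a root in a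
later window); so bits are transported along arcs, which are laminar in each strand. The
occurrences of the variables are brought to the clauses by `O(log m)` layers of a sorting network,
each of which consists of laminar arcs.
-/

namespace Pool.Agent.Results.MP_711ea9_lc.PlanarLowerBound

open Pool.Agent.Lib.MP_711ea9_lc Filter

/-- There are a program `red` and a constant `C` with the following properties. The program turns
every 3CNF formula `φ` with `m ≥ 1` clauses, in polynomial time, into an instance `(G, s, k)` of
the Firefighter problem which is a yes-instance if and only if `φ` is satisfiable; the graph `G` is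
planar, has `n m ≤ C m (log m + 1) ^ 8` vertices and maximum degree at most `C (log m + 1) ^ 2`.
Consequently, if `f n * (log n) ^ 8 / n → 0` and a program `p` decides the Firefighter problem on
planar graphs with `n` vertices in time `2 ^ f n`, then `red` followed by `p` decides 3SAT for
formulas with `m` clauses in time `2 ^ g m` with `g m / m → 0`. -/
theorem result : ∃ (red : Cmd) (C : ℕ) (n : ℕ → ℕ),
    (∀ m, 1 ≤ m → m ≤ n m ∧ n m ≤ C * m * (Nat.log 2 m + 1) ^ 8) ∧
    (∀ (m : ℕ) (φ : CNF3 m), 1 ≤ m → ∃ (G : SimpleGraph (Fin (n m))) (s : Fin (n m)) (k : ℕ),
      Planar G ∧ (∀ v, (G.neighborSet v).ncard ≤ C * (Nat.log 2 m + 1) ^ 2) ∧ k ≤ n m ∧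
      (Firefighter G s k ↔ φ.Sat) ∧
      red.exec φ.input = ffInput G s k ∧ red.cost φ.input ≤ (m + 2) ^ C) ∧
    ∀ (p : Cmd) (f : ℕ → ℕ),
      Tendsto (fun n : ℕ => (f n : ℝ) * Real.log n ^ 8 / n) atTop (nhds 0) →
      DecidesPlanar p f →
      ∃ g : ℕ → ℕ, Tendsto (fun m : ℕ => (g m : ℝ) / m) atTop (nhds 0) ∧
        DecidesSat (Cmd.seq red p) g :=
  FH.lower_bound

end Pool.Agent.Results.MP_711ea9_lc.PlanarLowerBound
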