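import Pool.Agent.Lib.MP_711ea9_lc.TW.Degree

set_option autoImplicit false

/-!
# The Firefighter problem on graphs of bounded treewidth with small degrees in time `2 ^ o(n)`

The proof is the one outlined in `TreewidthTwo`, for arbitrary bounded treewidth: if some pair of
vertices `z ≠ z'` is next to `M` pairwise disjoint connected pieces, then the degree of `z` is at
least `M`.
-/

namespace Pool.Agent.Results.MP_711ea9_lc.TreewidthDegree

open Pool.Agent.Lib.MP_711ea9_lc

/-- For all `k` and `d`, the Firefighter problem on graphs with `n` vertices, treewidth at most `k`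
and maximum degree at most `d + (log n) ^ d` can be solved in time `2 ^ o(n)`. -/
theorem result : ∀ k d : ℕ, SubexpSolvable (fun n G => TreewidthLE G k ∧
    ∀ v, (G.neighborSet v).ncard ≤ d + (Nat.log 2 n) ^ d) :=
  subexp_degree

end Pool.Agent.Results.MP_711ea9_lc.TreewidthDegree
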