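import Pool.Agent.Lib.MP_711ea9_lc.TW.Final

set_option autoImplicit false

/-!
# The Firefighter problem on graphs of treewidth at most two in time `2 ^ o(n)`

The graphs of treewidth at most two are the graphs without `K_4` minor, that is, the graphs whose
blocks are series-parallel; all of them are planar, and they include all outerplanar graphs.

Outline of the proof. Let the fire last `T` rounds in an optimal strategy, and suppose that
`n ≤ T L`. For a sequence of scales `r_0 < r_1 < …` let `H_0 ⊇ H_1 ⊇ …` be unions of bags of a tree
decomposition (closed under lowest common ancestors) with `O(n / r_j)` vertices, such that every
component outside `H_j` has fewer than `r_j` vertices and at most `2 (k + 1)` neighbours. At a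
typical time `p` consider the strategy which gives up all guards that are not yet needed at time
`p` and protects the vertices of `H_j` instead. If it is feasible, it is better. So too many
vertices of `H_j` are threatened within a bounded number `K` of rounds. By a lexicographic
potential argument there is a scale `j`, the same for many times `p`, at which the vertices of
`H_j` threatened within `K` rounds all belong to `H_(j+1)`. More of them are threatened than guards
were given up, so a piece outside `H_j` is next to two of them, `z ≠ z'`. There are few such pairs
compared with the number of times `p`. So some pair `z, z'` occurs for many disjoint connected
pieces, which the fire joins. If the treewidth is two, this is impossible for three pieces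
(it would give a `K_4` minor).
-/

namespace Pool.Agent.Results.MP_711ea9_lc.TreewidthTwo

open Pool.Agent.Lib.MP_711ea9_lc

/-- The Firefighter problem on graphs of treewidth at most two can be solved in time
`2 ^ o(n)`. -/
theorem result : SubexpSolvable (fun _ G => TreewidthLE G 2) :=
  subexp_treewidth_two

end Pool.Agent.Results.MP_711ea9_lc.TreewidthTwo
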